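import Pool.Agent.N567.HH.Stmt

/-!
# Hartshorne's conjecture on the Chow groups of hypersurfaces: reduction to the middle
-/

set_option autoImplicit false

open MvPolynomial

namespace Pool.Agent.N567.HH

variable {d n : ℕ}

lemma Hyp.Smooth.nodal {X : Hyp d n} (h : X.Smooth) : X.Nodal :=
  ⟨⟨∅, fun v hv => (h v hv).elim⟩, fun v hv => (h v hv).elim⟩

lemma eval_zero_of_homog {f : MvPolynomial (Fin (n + 2)) ℂ} (hf : f.IsHomogeneous d) (hd : d ≠ 0) :
    eval 0 f = 0 := by
  rw [show eval (0 : Fin (n + 2) → ℂ) f = coeff 0 f from ?_]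
  · exact hf.coeff_eq_zero (by simpa using hd.symm)
  · rw [MvPolynomial.eval_zero]
    rfl

lemma cast_ne (i : Fin (n + 2)) (j : Fin 2) : Fin.castAdd 2 i ≠ Fin.natAdd (n + 2) j := by
  intro h
  have := congrArg Fin.val h
  simp at this
  omega

lemma pderiv_cast (f : MvPolynomial (Fin (n + 2)) ℂ) (j : Fin 2) :
    pderiv (Fin.natAdd (n + 2) j) (rename (Fin.castAdd 2) f) = 0 := by
  apply pderiv_eq_zero_of_notMem_vars
  intro h
  obtain ⟨i, -, hi⟩ := Finset.mem_image.1 (vars_rename _ _ h)
  exact cast_ne i j hi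

/-- Smooth hypersurfaces of degree at least two have smooth suspensions. -/
lemma exists_suspension (hd : 2 ≤ d) (X : Hyp d n) (hX : X.Smooth) :
    ∃ Z : Hyp d (n + 2), Z.Smooth ∧ Z.IsSuspension X := by
  obtain ⟨e, rfl⟩ : ∃ e, d = e + 2 := ⟨d - 2, by omega⟩
  have he : Fin.natAdd (n + 2) (1 : Fin 2) ≠ Fin.natAdd (n + 2) (0 : Fin 2) := by
    intro h
    have := congrArg Fin.val h
    simp at this
  set A : MvPolynomial (Fin (n + 2 + 2)) ℂ := MvPolynomial.X (Fin.natAdd (n + 2) 0) with hA
  set B : MvPolynomial (Fin (n + 2 + 2)) ℂ := MvPolynomial.X (Fin.natAdd (n + 2) 1) with hB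
  have hAh : A.IsHomogeneous 1 := isHomogeneous_X ℂ _
  have hBh : B.IsHomogeneous 1 := isHomogeneous_X ℂ _
  set P := rename (Fin.castAdd 2) X.poly + A * B * (A ^ e + B ^ e) with hP
  have hhom : P.IsHomogeneous (e + 2) := by
    refine X.homogeneous.rename_isHomogeneous.add ?_
    have h1 : (A ^ e + B ^ e).IsHomogeneous e := by
      refine IsHomogeneous.add ?_ ?_
      · simpa using hAh.pow e
      · simpa using hBh.pow e
    have h2 := (hAh.mul hBh).mul h1
    rwa [show 1 + 1 + e = e + 2 by ring] at h2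
  have hne : P ≠ 0 := by
    intro h
    have h1 := congrArg (eval (Fin.append (0 : Fin (n + 2) → ℂ) ![1, 1])) h
    have e : (Fin.append (0 : Fin (n + 2) → ℂ) ![1, 1]) ∘ Fin.castAdd 2 = 0 := by
      funext i
      simp
    rw [hP, map_add, eval_rename, map_mul, map_mul, map_add, map_pow, map_pow, hA, hB, eval_X,
      eval_X, map_zero, Fin.append_right, Fin.append_right, e,
      eval_zero_of_homog X.homogeneous (by omega)] at h1
    simp at h1
  refine ⟨⟨P, hhom, hne⟩, ?_, ⟨A ^ e + B ^ e, rfl⟩⟩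
  rintro v ⟨h0, h1, h2⟩
  change eval v P = 0 at h1
  change ∀ i, eval v (pderiv i P) = 0 at h2
  obtain ⟨x, hx⟩ : ∃ x, v (Fin.natAdd (n + 2) 0) = x := ⟨_, rfl⟩
  obtain ⟨y, hy⟩ : ∃ y, v (Fin.natAdd (n + 2) 1) = y := ⟨_, rfl⟩
  have ha : y * (x ^ e + y ^ e) + x * y * (e * x ^ (e - 1)) = 0 := by
    have h := h2 (Fin.natAdd (n + 2) 0)
    rw [hP, map_add, pderiv_cast, zero_add, pderiv_mul, pderiv_mul] at h
    simp only [map_add] at h
    rw [pderiv_pow, pderiv_pow, hA, hB, pderiv_X_self, pderiv_X_of_ne he] at h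
    simp only [map_add, map_mul, map_pow, eval_X, hx, hy, map_natCast, mul_zero, mul_one, add_zero,
      one_mul] at h
    linear_combination h
  have hb : x * (x ^ e + y ^ e) + x * y * (e * y ^ (e - 1)) = 0 := by
    have h := h2 (Fin.natAdd (n + 2) 1)
    rw [hP, map_add, pderiv_cast, zero_add, pderiv_mul, pderiv_mul] at h
    simp only [map_add] at h
    rw [pderiv_pow, pderiv_pow, hA, hB, pderiv_X_self, pderiv_X_of_ne he.symm] at h
    simp only [map_add, map_mul, map_pow, eval_X, hx, hy, map_natCast, mul_zero, mul_one, zero_add,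
      zero_mul] at h
    linear_combination h
  have hxe : x * (e * x ^ (e - 1)) = e * x ^ e := by
    rcases e with _ | e
    · simp
    · rw [Nat.add_sub_cancel]
      ring
  have hye : y * (e * y ^ (e - 1)) = e * y ^ e := by
    rcases e with _ | e
    · simp
    · rw [Nat.add_sub_cancel]
      ring
  have ha' : y * ((e + 1) * x ^ e + y ^ e) = 0 := by linear_combination ha - y * hxe
  have hb' : x * ((e + 1) * y ^ e + x ^ e) = 0 := by linear_combination hb - x * hye
  have hxy : x = 0 ∧ y = 0 := by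
    rcases eq_or_ne y 0 with h3 | h3
    · refine ⟨?_, h3⟩
      rcases mul_eq_zero.1 hb' with h4 | h4
      · exact h4
      · rcases e with _ | e
        · simp at h4
        · rw [h3] at h4
          simp at h4
          exact h4
    · exfalso
      have h4 := (mul_eq_zero.1 ha').resolve_left h3
      rcases eq_or_ne x 0 with h5 | h5
      · rcases e with _ | e
        · norm_num at h4
        · rw [h5] at h4
          simp at h4
          exact h3 h4
      · have h6 := (mul_eq_zero.1 hb').resolve_left h5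
        have h7 : (e : ℂ) * (e + 2) * x ^ e = 0 := by
          linear_combination (e + 1) * h4 - h6
        rcases e with _ | e
        · norm_num at h4
        · rcases mul_eq_zero.1 h7 with h8 | h8
          · rcases mul_eq_zero.1 h8 with h9 | h9
            · exact absurd h9 (by exact_mod_cast Nat.succ_ne_zero e)
            · exact absurd h9 (by exact_mod_cast (by omega : e + 1 + 2 ≠ 0))
          · exact absurd ((pow_eq_zero_iff (by omega)).1 h8) h5
  refine hX (v ∘ Fin.castAdd 2) ⟨?_, ?_, ?_⟩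
  · intro h
    apply h0
    funext i
    refine Fin.addCases (fun i => ?_) (fun j => ?_) i
    · exact congrFun h i
    · fin_cases j
      · exact hx.trans hxy.1
      · exact hy.trans hxy.2
  · rw [hP, map_add, eval_rename, map_mul, map_mul, hA, eval_X, hx, hxy.1, zero_mul, zero_mul,
      add_zero] at h1
    exact h1
  · intro i
    have h := h2 (Fin.castAdd 2 i)
    rw [hP, map_add, pderiv_rename (Fin.castAdd_injective (n + 2) 2), pderiv_mul, pderiv_mul,
      hA, hB, pderiv_X_of_ne (cast_ne i _).symm, pderiv_X_of_ne (cast_ne i _).symm] at h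
    simp only [map_add, map_mul, eval_X, hx, hy, hxy.1, hxy.2, mul_zero, zero_mul, add_zero,
      eval_rename, map_zero] at h
    exact h

section chow

variable {T : ChowData}

lemma nodal_step (hT : IsChow T) {l j : ℕ} (hd : 1 ≤ d)
    (h1 : ∀ Y : Hyp d (l + j + 1), Y.Smooth → Spanned T Y l)
    (h2 : ∀ Y : Hyp d (l + j + 1), Y.Nodal → Spanned T Y (l + 1))
    (X : Hyp d (l + j + 2)) (hX : X.Nodal) : Spanned T X (l + 1) := by
  intro z
  obtain ⟨ι, Y, s, hY, h⟩ := hT.pencil X hX (by omega)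
  have hd0 : (d : ℚ) ≠ 0 := by
    exact_mod_cast (by omega : d ≠ 0)
  have key : z - (T.deg X (l + 1) z / d) • T.lin X (l + 1) ∈
      ⨆ t, LinearMap.range (T.push (s t) (l + 1)) := by
    apply h l
    intro t ht
    obtain ⟨a, ha⟩ := h1 (Y t) ht
      (T.pull (s t) l (z - (T.deg X (l + 1) z / d) • T.lin X (l + 1)))
    have h3 := congrArg (T.deg (Y t) l) ha
    rw [hT.isLin.deg_pull, map_sub, map_smul, map_smul, hT.isLin.deg_lin _ _ (by omega),
      hT.isLin.deg_lin _ _ (by omega), smul_eq_mul, smul_eq_mul, div_mul_cancel₀ _ hd0,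
      sub_self] at h3
    have h4 : a = 0 := by
      rcases mul_eq_zero.1 h3.symm with h5 | h5
      · exact h5
      · exact absurd h5 hd0
    rw [ha, h4, zero_smul]
  have h5 : (⨆ t, LinearMap.range (T.push (s t) (l + 1))) ≤
      Submodule.span ℚ {T.lin X (l + 1)} := by
    refine iSup_le fun t => ?_
    rintro _ ⟨w, rfl⟩
    obtain ⟨c, rfl⟩ := h2 (Y t) (hY t) w
    rw [map_smul, hT.isLin.push_lin _ _ (by omega)]
    exact Submodule.smul_mem _ _ (Submodule.mem_span_singleton_self _)
  obtain ⟨c, hc⟩ := Submodule.mem_span_singleton.1 (h5 key)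
  refine ⟨c + T.deg X (l + 1) z / d, ?_⟩
  rw [add_smul, hc]
  abel

/-- The induction over the dimension. -/
lemma all_of_middle (hT : IsChow T) (hd : 1 ≤ d) {i : ℕ}
    (hm : ∀ j ≤ i, Hartshorne T d (2 * j + 1) j) (n : ℕ) :
    ∀ j ≤ i, (2 * j < n → Hartshorne T d n j) ∧ (2 * j + 1 < n → HartshorneNodal T d n j) := by
  induction n with
  | zero =>
    intro j hj
    exact ⟨fun h => by omega, fun h => by omega⟩
  | succ n ih =>
    intro j hj
    rcases j with _ | j
    · exact ⟨fun h X hX z => hT.top X (Or.inl ⟨hX, by omega⟩) z,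
        fun h X hX z => hT.top X (Or.inr ⟨hX, by omega⟩) z⟩
    · have key : 2 * (j + 1) + 1 < n + 1 → HartshorneNodal T d (n + 1) (j + 1) := by
        intro hn
        have h1 := (ih (j + 1) hj).1 (by omega)
        have h2 := (ih j (by omega)).2 (by omega)
        obtain ⟨l, rfl⟩ : ∃ l, n = l + j + 1 := ⟨n - (j + 1), by omega⟩
        have e1 : l + j + 1 - (j + 1) = l := by omega
        have e2 : l + j + 1 - j = l + 1 := by omega
        have e3 : l + j + 1 + 1 - (j + 1) = l + 1 := by omega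
        unfold Hartshorne at h1
        unfold HartshorneNodal at h2 ⊢
        rw [e1] at h1
        rw [e2] at h2
        rw [e3]
        exact nodal_step hT hd h1 h2
      refine ⟨fun hn => ?_, key⟩
      rcases Nat.lt_or_ge (2 * (j + 1) + 1) (n + 1) with h | h
      · exact fun X hX z => key h X hX.nodal z
      · have e : n = 2 * (j + 1) := by omega
        subst e
        exact hm (j + 1) hj

lemma _root_.Pool.Agent.N567.HH.Hyp.IsAbove.smooth {d' n' r : ℕ} {X : Hyp d n} {X' : Hyp d' n'}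
    (h : X.IsAbove r X') : X'.Smooth := by
  cases h with
  | refl _ h => exact h
  | suspension _ _ _ _ _ h _ => exact h
  | power _ _ _ _ _ _ h _ _ => exact h

lemma _root_.Pool.Agent.N567.HH.Hyp.IsAbove.dim {d' n' r : ℕ} {X : Hyp d n} {X' : Hyp d' n'}
    (h : X.IsAbove r X') : n' = n + 2 * r := by
  induction h with
  | refl => rfl
  | suspension _ _ _ _ _ _ _ ih => rw [ih]; ring
  | power _ _ _ _ _ _ _ _ _ ih => exact ih

/-- Going down. -/
lemma of_above (hT : IsChow T) {d' n' r : ℕ} {X : Hyp d n} {X' : Hyp d' n'}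
    (h : X.IsAbove r X') : ∀ {l : ℕ}, l ≤ n →
      Spanned T X' (l + r) → Spanned T X l := by
  induction h with
  | refl X hX => exact fun hl h => h
  | suspension X r Y Z hY hZ hs ih =>
    intro l hl h
    refine ih hl fun z => ?_
    obtain ⟨a, b, hab, ha⟩ := hT.suspension Y Z hY.smooth hZ hs (l + r) (by
      have := hY.dim
      omega)
    obtain ⟨c, hc⟩ := h (a z)
    refine ⟨c, ?_⟩
    rw [← hab z, hc]
    change b (c • T.lin Z (l + r + 1)) = _
    rw [map_smul, ← ha, hab]
  | power X r k Y Z hY hZ hk hs ih =>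
    intro l hl h
    refine ih hl fun z => ?_
    obtain ⟨a, c, ha, hc, hac⟩ := hT.power Y Z k hY.smooth hZ hk hs (l + r) (by
      have := hY.dim
      omega)
    obtain ⟨e, he⟩ := h (a z)
    refine ⟨e / c, ha ?_⟩
    rw [he, map_smul, hac, smul_smul, div_mul_cancel₀ _ hc]

/-- Going up. -/
lemma exists_above (hd : 2 ≤ d) (X : Hyp d n) (hX : X.Smooth) (r : ℕ) :
    ∃ X' : Hyp d (n + 2 * r), X.IsAbove r X' := by
  induction r with
  | zero => exact ⟨X, .refl X hX⟩
  | succ r ih =>
    obtain ⟨Y, hY⟩ := ih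
    obtain ⟨Z, hZ, hs⟩ := exists_suspension hd Y hY.smooth
    exact ⟨Z, .suspension X r Y Z hY hZ hs⟩

/-- Suspensions. -/
lemma of_suspension (hT : IsChow T) (hd : 2 ≤ d) (r : ℕ) {l : ℕ} (hl : l ≤ n)
    (h : ∀ X : Hyp d (n + 2 * r), X.Smooth → Spanned T X (l + r)) (X : Hyp d n) (hX : X.Smooth) :
    Spanned T X l := by
  obtain ⟨X', h'⟩ := exists_above hd X hX r
  exact of_above hT h' hl (h X' h'.smooth)

/-- One degree. -/
theorem one_degree (hT : IsChow T) {d i : ℕ} (hd : 2 ≤ d) (h : Hartshorne T d (2 * i + 1) i) :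
    ∀ j ≤ i, ∀ n : ℕ, (2 * j < n → Hartshorne T d n j) ∧
      (2 * j + 1 < n → HartshorneNodal T d n j) := by
  have h2 : ∀ j ≤ i, Hartshorne T d (2 * j + 1) j := by
    intro j hj
    unfold Hartshorne at h ⊢
    have e0 : 2 * j + 1 - j = j + 1 := by omega
    rw [e0]
    apply of_suspension hT hd (i - j) (by omega)
    have e1 : 2 * j + 1 + 2 * (i - j) = 2 * i + 1 := by omega
    have e2 : j + 1 + (i - j) = 2 * i + 1 - i := by omega
    rw [e1, e2]
    exact h
  intro j hj n
  exact all_of_middle hT (by omega) h2 n j hj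

/-- All degrees. -/
theorem all_degrees (hT : IsChow T) :
    List.TFAE [∀ d n i : ℕ, 1 ≤ d → 2 * i < n → Hartshorne T d n i,
      ∀ m : ℕ, 1 ≤ m → ∃ d i : ℕ, 1 ≤ d ∧ m ∣ d ∧ m ≤ i ∧ Hartshorne T d (2 * i + 1) i,
      HartshorneAbove T,
      ∀ d n i : ℕ, 1 ≤ d → (2 * i < n → Hartshorne T d n i) ∧
        (2 * i + 1 < n → HartshorneNodal T d n i)] := by
  tfae_have 1 → 2 := by
    intro h m hm
    exact ⟨m, m, hm, dvd_rfl, le_rfl, h m _ _ hm (by omega)⟩
  tfae_have 2 → 3 := by
    intro h d i hd X hX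
    obtain ⟨d', i', hd', ⟨k, hk⟩, hi', H⟩ := h (2 * d * (i + 1))
      (Nat.mul_pos (by omega) (by omega))
    have hk0 : k ≠ 0 := by
      rintro rfl
      rw [mul_zero] at hk
      omega
    have e : d' = d * (2 * (i + 1) * k) := by rw [hk]; ring
    have h4 : d * 2 ≤ d' := by
      rw [e]
      refine Nat.mul_le_mul_left _ ?_
      calc 2 = 2 * 1 * 1 := by norm_num
        _ ≤ 2 * (i + 1) * k := Nat.mul_le_mul (Nat.mul_le_mul le_rfl (by omega)) (by omega)
    have h5 : i ≤ i' := by
      refine le_trans ?_ hi'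
      calc i ≤ 1 * (i + 1) := by omega
        _ ≤ 2 * d * (i + 1) := Nat.mul_le_mul_right _ (by omega)
    subst e
    obtain ⟨X1, hX1, hp⟩ := hT.exists_power X (2 * (i + 1) * k) hX
      (Nat.mul_pos (by omega) (by omega))
    have h6 : X.IsAbove 0 X1 := .power X 0 _ X X1 (.refl X hX) hX1
      (Nat.mul_pos (by omega) (by omega)) hp
    have h7 : ∀ r, ∃ X' : Hyp (d * (2 * (i + 1) * k)) (2 * i + 1 + 2 * r), X.IsAbove r X' := by
      intro r
      induction r with
      | zero => exact ⟨X1, h6⟩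
      | succ r ih =>
        obtain ⟨Y, hY⟩ := ih
        obtain ⟨Z, hZ, hs⟩ := exists_suspension (by omega) Y hY.smooth
        exact ⟨Z, .suspension X r Y Z hY hZ hs⟩
    obtain ⟨X', hX'⟩ := h7 (i' - i)
    refine ⟨i' - i, _, _, X', hX', ?_⟩
    have h8 : ∀ Y : Hyp (d * (2 * (i + 1) * k)) (2 * i + 1 + 2 * (i' - i)), Y.Smooth →
        Spanned T Y (2 * i + 1 + 2 * (i' - i) - (i + (i' - i))) := by
      have e1 : 2 * i + 1 + 2 * (i' - i) = 2 * i' + 1 := by omega
      have e2 : i + (i' - i) = i' := by omega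
      rw [e1, e2]
      exact H
    exact h8 X' hX'.smooth
  tfae_have 3 → 4 := by
    intro h d n i hd
    refine all_of_middle hT hd (i := i) (fun j _ X hX => ?_) n i le_rfl
    obtain ⟨r, d', n', X', hX', H⟩ := h d j hd X hX
    have e0 : 2 * j + 1 - j = j + 1 := by omega
    rw [e0]
    refine of_above hT hX' (by omega) ?_
    have e1 : n' - (j + r) = j + 1 + r := by
      have := hX'.dim
      omega
    rwa [e1] at H
  tfae_have 4 → 1 := fun h d n i hd => (h d n i hd).1
  tfae_finish

end chow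

end Pool.Agent.N567.HH
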