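import Mathlib

/-!
# Hartshorne's conjecture on the Chow groups of hypersurfaces: the definitions
-/

set_option autoImplicit false

open MvPolynomial

namespace Pool.Agent.N567.HH

/-- The polynomials in `m` variables with complex coefficients. -/
abbrev Poly (m : ℕ) : Type := MvPolynomial (Fin m) ℂ

/-- The value of a polynomial. -/
noncomputable def value {m : ℕ} (f : Poly m) (v : Fin m → ℂ) : ℂ := eval v f

/-- The value of a partial derivative of first order. -/
noncomputable def deriv₁ {m : ℕ} (f : Poly m) (v : Fin m → ℂ) (i : Fin m) : ℂ :=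
  eval v (pderiv i f)

/-- The value of a partial derivative of second order. -/
noncomputable def deriv₂ {m : ℕ} (f : Poly m) (v : Fin m → ℂ) (i j : Fin m) : ℂ :=
  eval v (pderiv i (pderiv j f))

/-- The polynomial in `a` variables is composed with a linear map. -/
noncomputable def compLin {a b : ℕ} (f : Poly a) (M : Matrix (Fin a) (Fin b) ℂ) : Poly b :=
  bind₁ (fun i => ∑ j, C (M i j) * X j) f

/-- The polynomial `f(x)` regarded as a polynomial in `x` and two further variables. -/
noncomputable def addVars {m : ℕ} (f : Poly m) : Poly (m + 2) := rename (Fin.castAdd 2) f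

/-- The product of the last two variables and the polynomial. -/
noncomputable def mulLast {m : ℕ} (G : Poly (m + 2)) : Poly (m + 2) :=
  X (Fin.natAdd m 0) * X (Fin.natAdd m 1) * G

/-- The `k`-th powers of the variables are put into the polynomial. -/
noncomputable def powVars {m : ℕ} (k : ℕ) (f : Poly m) : Poly m := expand k f

/-- A hypersurface of degree `d` and dimension `n` in the complex projective space of dimension
`n + 1`, given by its equation: a nonzero homogeneous polynomial of degree `d` in `n + 2`
variables. -/
structure Hyp (d n : ℕ) where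
  poly : Poly (n + 2)
  homogeneous : poly.IsHomogeneous d
  ne_zero : poly ≠ 0

namespace Hyp

variable {d n : ℕ}

/-- The vector `v` represents a singular point of the hypersurface. -/
def IsSing (X : Hyp d n) (v : Fin (n + 2) → ℂ) : Prop :=
  v ≠ 0 ∧ value X.poly v = 0 ∧ ∀ i, deriv₁ X.poly v i = 0

/-- The hypersurface is smooth. -/
def Smooth (X : Hyp d n) : Prop := ∀ v, ¬ X.IsSing v

/-- The hypersurface has at most finitely many singular points. -/
def FiniteSing (X : Hyp d n) : Prop :=
  ∃ S : Finset (Fin (n + 2) → ℂ), ∀ v, X.IsSing v → ∃ s ∈ S, ∃ c : ℂ, v = c • s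

/-- The singular point given by `v` is an ordinary double point if the kernel of the Hessian matrix
at `v` is the line of `v`. -/
def IsDouble (X : Hyp d n) (v : Fin (n + 2) → ℂ) : Prop :=
  ∀ w : Fin (n + 2) → ℂ, (∀ i, ∑ j, deriv₂ X.poly v i j * w j = 0) → ∃ c : ℂ, w = c • v

/-- The hypersurface has at most finitely many singular points, and they are ordinary double
points. -/
def Nodal (X : Hyp d n) : Prop := X.FiniteSing ∧ ∀ v, X.IsSing v → X.IsDouble v

/-- The hypersurface `Z` is a suspension `f(x) + a b G(x, a, b) = 0` of the hypersurface `X` with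
equation `f(x) = 0`. The points `p` with `x = b = 0` and `q` with `x = a = 0` lie on `Z`, and the
hyperplane sections `b = 0` and `a = 0` of `Z` are the cones over `X` with the vertices `p` and
`q`. -/
def IsSuspension (Z : Hyp d (n + 2)) (X : Hyp d n) : Prop :=
  ∃ G : Poly (n + 2 + 2), Z.poly = addVars X.poly + mulLast G

/-- The hypersurface `X'` is the inverse image of `X` under the morphism from the projective space
to itself given by the `k`-th powers of some homogeneous coordinates. -/
def IsPower {d' : ℕ} (k : ℕ) (X' : Hyp d' n) (X : Hyp d n) : Prop :=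
  ∃ M : Matrix (Fin (n + 2)) (Fin (n + 2)) ℂ, Function.Injective M.mulVec ∧
    X'.poly = powVars k (compLin X.poly M)

/-- The smooth hypersurface `X'` is obtained from `X` by a finite sequence of `r` suspensions and
any number of inverse images under power maps, with smooth hypersurfaces. Then the dimension of `X'`
is that of `X` plus `2 r`. -/
inductive IsAbove : ∀ {d n : ℕ}, Hyp d n → ℕ → ∀ {d' n' : ℕ}, Hyp d' n' → Prop
  | refl {d n : ℕ} (X : Hyp d n) : X.Smooth → IsAbove X 0 X
  | suspension {d n d' n' : ℕ} (X : Hyp d n) (r : ℕ) (Y : Hyp d' n') (Z : Hyp d' (n' + 2)) :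
      IsAbove X r Y → Z.Smooth → Z.IsSuspension Y → IsAbove X (r + 1) Z
  | power {d n d' n' d'' : ℕ} (X : Hyp d n) (r k : ℕ) (Y : Hyp d' n') (Z : Hyp d'' n') :
      IsAbove X r Y → Z.Smooth → 1 ≤ k → Z.IsPower k Y → IsAbove X r Z

end Hyp

/-- An identification of `Y` with a hyperplane section of `X`: an injective linear map under which
the equation of `X` pulls back to the equation of `Y`. -/
structure Section {d n : ℕ} (Y : Hyp d n) (X : Hyp d (n + 1)) where
  mat : Matrix (Fin (n + 3)) (Fin (n + 2)) ℂ
  injective : Function.Injective mat.mulVec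
  poly_eq : Y.poly = compLin X.poly mat

/-- The data of the Chow groups of hypersurfaces: `CH X l` is the group of cycles of dimension `l` on
`X` modulo rational equivalence with rational coefficients; `lin X l` is the class of a linear section
of dimension `l` of `X`, for `l ≤ dim X` (the intersection of the fundamental cycle of `X` with a
power of the hyperplane class); `deg` is the degree of cycles with respect to the hyperplane class;
`pull` and `push` are the intersection with a hyperplane section `Y` of `X` (the Gysin map of the
Cartier divisor `Y` of `X`) and the push-forward from `Y` to `X`. -/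
structure ChowData where
  CH : ∀ {d n : ℕ}, Hyp d n → ℕ → Type
  [addCommGroup : ∀ {d n : ℕ} (X : Hyp d n) (l : ℕ), AddCommGroup (CH X l)]
  [module : ∀ {d n : ℕ} (X : Hyp d n) (l : ℕ), Module ℚ (CH X l)]
  lin : ∀ {d n : ℕ} (X : Hyp d n) (l : ℕ), CH X l
  deg : ∀ {d n : ℕ} (X : Hyp d n) (l : ℕ), CH X l →ₗ[ℚ] ℚ
  pull : ∀ {d n : ℕ} {Y : Hyp d n} {X : Hyp d (n + 1)} (_ : Section Y X) (l : ℕ),
    CH X (l + 1) →ₗ[ℚ] CH Y l
  push : ∀ {d n : ℕ} {Y : Hyp d n} {X : Hyp d (n + 1)} (_ : Section Y X) (l : ℕ),
    CH Y l →ₗ[ℚ] CH X l

attribute [instance] ChowData.addCommGroup ChowData.module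

section facts

variable (T : ChowData)

/-- The Chow group of cycles of dimension `l` of `X` is generated by the class of a linear
section. -/
def Spanned {d n : ℕ} (X : Hyp d n) (l : ℕ) : Prop :=
  ∀ z : T.CH X l, ∃ c : ℚ, z = c • T.lin X l

/-- The formal properties of linear sections and degrees: the degree of a linear section; hyperplane
sections of linear sections are linear sections; linear sections of hyperplane sections are linear
sections; the intersection with a hyperplane section respects degrees. -/
structure IsLin : Prop where
  deg_lin : ∀ {d n : ℕ} (X : Hyp d n) (l : ℕ), l ≤ n → T.deg X l (T.lin X l) = d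
  pull_lin : ∀ {d n : ℕ} {Y : Hyp d n} {X : Hyp d (n + 1)} (s : Section Y X) (l : ℕ), l ≤ n →
    T.pull s l (T.lin X (l + 1)) = T.lin Y l
  push_lin : ∀ {d n : ℕ} {Y : Hyp d n} {X : Hyp d (n + 1)} (s : Section Y X) (l : ℕ), l ≤ n →
    T.push s l (T.lin Y l) = T.lin X l
  deg_pull : ∀ {d n : ℕ} {Y : Hyp d n} {X : Hyp d (n + 1)} (s : Section Y X) (l : ℕ)
    (z : T.CH X (l + 1)), T.deg Y l (T.pull s l z) = T.deg X (l + 1) z

/-- Every cycle `z` of dimension `l + 1` on `X` whose intersection with all the smooth hyperplane
sections `Y t` is rationally equivalent to zero is rationally equivalent to a cycle supported on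
finitely many of the `Y t`. -/
def Spreads {d n : ℕ} (X : Hyp d (n + 1)) {ι : Type} {Y : ι → Hyp d n}
    (s : ∀ t, Section (Y t) X) (l : ℕ) : Prop :=
  ∀ z : T.CH X (l + 1), (∀ t, (Y t).Smooth → T.pull (s t) l z = 0) →
    z ∈ ⨆ t, LinearMap.range (T.push (s t) (l + 1))

/-- Lefschetz pencils, spreading and localization: every nodal hypersurface `X` of dimension at
least two has a pencil of nodal hyperplane sections `Y t`, almost all of them smooth, and a cycle
whose intersection with all the smooth `Y t` is rationally equivalent to zero is rationally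
equivalent to a cycle supported on finitely many of the `Y t`. -/
def HasPencils : Prop :=
  ∀ {d n : ℕ} (X : Hyp d (n + 1)), X.Nodal → 1 ≤ n →
    ∃ (ι : Type) (Y : ι → Hyp d n) (s : ∀ t, Section (Y t) X), (∀ t, (Y t).Nodal) ∧
      ∀ l : ℕ, Spreads T X s l

/-- The Chow group of cycles of dimension `l` of `X` is a direct summand of the group of cycles of
dimension `l + 1` of `Z`, the classes of linear sections corresponding to each other. -/
def IsSummand {d n m : ℕ} (X : Hyp d n) (Z : Hyp d m) (l : ℕ) : Prop :=
  ∃ (a : T.CH X l →ₗ[ℚ] T.CH Z (l + 1)) (b : T.CH Z (l + 1) →ₗ[ℚ] T.CH X l),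
    (∀ z, b (a z) = z) ∧ a (T.lin X l) = T.lin Z (l + 1)

/-- The Chow group of cycles of dimension `l` of `X` is mapped injectively to that of `X'`, the class
of a linear section of `X` to a nonzero multiple of the class of a linear section of `X'`. -/
def IsSub {d d' n : ℕ} (X : Hyp d n) (X' : Hyp d' n) (l : ℕ) : Prop :=
  ∃ (a : T.CH X l →ₗ[ℚ] T.CH X' l) (c : ℚ), Function.Injective a ∧ c ≠ 0 ∧
    a (T.lin X l) = c • T.lin X' l

/-- The properties used of the Chow groups of hypersurfaces. -/
structure IsChow : Prop where
  isLin : IsLin T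
  /-- Smooth hypersurfaces of positive dimension and nodal hypersurfaces of dimension at least two
  are irreducible. -/
  top : ∀ {d n : ℕ} (X : Hyp d n), (X.Smooth ∧ 1 ≤ n) ∨ (X.Nodal ∧ 2 ≤ n) → Spanned T X n
  pencil : HasPencils T
  /-- Suspensions: let `a` map a cycle on `X` to the cone over it with the vertex `p` in `Z`; let `b`
  be the restriction to the cone over `X` with the vertex `q` in `Z` (or rather to its blow up in
  `q`, a projective line bundle over `X`) followed by the push-forward to `X`. -/
  suspension : ∀ {d n : ℕ} (X : Hyp d n) (Z : Hyp d (n + 2)), X.Smooth → Z.Smooth →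
    Z.IsSuspension X → ∀ l ≤ n, IsSummand T X Z l
  /-- Power maps: the pull-back of cycles under a finite surjective morphism is injective. -/
  power : ∀ {d d' n : ℕ} (X : Hyp d n) (X' : Hyp d' n) (k : ℕ), X.Smooth → X'.Smooth → 1 ≤ k →
    X'.IsPower k X → ∀ l ≤ n, IsSub T X X' l
  /-- By Bertini's theorem the inverse image of a smooth hypersurface under the power map given by
  general homogeneous coordinates is smooth. -/
  exists_power : ∀ {d n : ℕ} (X : Hyp d n) (k : ℕ), X.Smooth → 1 ≤ k →
    ∃ X' : Hyp (d * k) n, X'.Smooth ∧ X'.IsPower k X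

/-- For all smooth hypersurfaces of degree `d` and dimension `n` the Chow group of cycles of
codimension `i` is generated by the class of a linear section. Hartshorne's conjecture asserts this for
all `d ≥ 1` and all `i < n / 2`. -/
def Hartshorne (d n i : ℕ) : Prop := ∀ X : Hyp d n, X.Smooth → Spanned T X (n - i)

/-- The same for all hypersurfaces with at most finitely many ordinary double points and no other
singularities. -/
def HartshorneNodal (d n i : ℕ) : Prop := ∀ X : Hyp d n, X.Nodal → Spanned T X (n - i)

/-- Every smooth hypersurface `X` of odd dimension `2 i + 1` has a hypersurface `X'` above it, of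
some dimension `2 (i + r) + 1`, whose Chow group of cycles of codimension `i + r` is generated by the
class of a linear section. -/
def HartshorneAbove : Prop :=
  ∀ (d i : ℕ), 1 ≤ d → ∀ X : Hyp d (2 * i + 1), X.Smooth →
    ∃ (r d' n' : ℕ) (X' : Hyp d' n'), X.IsAbove r X' ∧ Spanned T X' (n' - (i + r))

end facts

end Pool.Agent.N567.HH
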